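import Pool.Agent.Helper46.T6.Stmts

/-! T6, NEAR: the exponent near the peak. -/

set_option autoImplicit false

open Finset MeasureTheory Filter Topology

namespace Pool.Agent.Helper66.T6

open Pool.Agent.Helper15.T4 (IsPM PM cov IsMat nsq po)
open Pool.Agent.Helper15.T6
open Pool.Agent.Helper46.T6

theorem nsq_sub_eq {ι : Type} [Fintype ι] (x y : ι → ℝ) :
    nsq (fun a => x a - y a) = nsq x + nsq y - 2 * ip x y := by
  unfold nsq ip
  rw [← Finset.sum_add_distrib, Finset.mul_sum, ← Finset.sum_sub_distrib]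
  exact Finset.sum_congr rfl fun a _ => by ring

theorem abs_ip_le {ι : Type} [Fintype ι] (x y : ι → ℝ) :
    |ip x y| ≤ Real.sqrt (nsq x) * Real.sqrt (nsq y) := by
  unfold nsq ip
  rw [← Real.sqrt_mul (Finset.sum_nonneg fun i _ => sq_nonneg _)]
  apply Real.abs_le_sqrt
  exact Finset.sum_mul_sq_le_sq_mul_sq _ _ _

theorem st_NEAR (hLOC : ST_LOC) (hTAN : ST_TANP) : ST_NEAR := by
  intro d hd K
  obtain ⟨C, hC, hloc⟩ := hLOC d hd K
  obtain ⟨-, -, htan⟩ := hTAN d hd K
  refine ⟨2 * Real.sqrt C, by positivity, fun g e O hg hO => ?_⟩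
  obtain ⟨h1, h2⟩ := hloc O hO
  set D : (Fin K × Fin 2 → Fin d) → ℝ := fun a => pt (Equiv.refl _) O a - u0 d K a with hD
  set β : Fin K → Md d := fun p => (1 / 2 : ℝ) • (O p - (O p).transpose) with hβ
  set S : ℝ := ∑ p, nsqm (O p - 1) with hS
  have hS0 : 0 ≤ S := by
    rw [hS]
    exact Finset.sum_nonneg fun p _ => Finset.sum_nonneg fun i _ =>
      Finset.sum_nonneg fun j _ => sq_nonneg _
  have hβa : ∀ p, (β p).transpose = -β p := by
    intro p
    rw [hβ]
    ext i j
    simp [Matrix.transpose_apply]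
    ring
  have h0 := htan g hg β hβa
  have e1 : (fun a => u0 d K a + g a + e a - pt (Equiv.refl _) O a) =
      fun a => (fun b => g b + e b) a - D a := by
    funext a; simp only [hD]; ring
  rw [e1, nsq_sub_eq]
  have e2 : nsq (fun b => g b + e b) + nsq D - 2 * ip (fun b => g b + e b) D -
      (nsq (fun a => g a + e a) + nsq D) = -(2 * ip g (fun a => D a - Lmd β a)) - 2 * ip e D := by
    have h3 : ip (fun b => g b + e b) D = ip g (fun a => D a - Lmd β a) + ip g (Lmd β) + ip e D := by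
      unfold ip
      rw [← Finset.sum_add_distrib, ← Finset.sum_add_distrib]
      exact Finset.sum_congr rfl fun a _ => by ring
    rw [h3, h0]; ring
  rw [e2]
  have b1 : |ip g (fun a => D a - Lmd β a)| ≤ Real.sqrt (nsq g) * (Real.sqrt C * S) := by
    refine (abs_ip_le _ _).trans (mul_le_mul_of_nonneg_left ?_ (Real.sqrt_nonneg _))
    calc Real.sqrt (nsq (fun a => D a - Lmd β a)) ≤ Real.sqrt (C * S ^ 2) := Real.sqrt_le_sqrt h1
      _ = Real.sqrt C * S := by rw [Real.sqrt_mul hC.le, Real.sqrt_sq hS0]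
  have b2 : |ip e D| ≤ Real.sqrt (nsq e) * (Real.sqrt C * Real.sqrt S) := by
    refine (abs_ip_le _ _).trans (mul_le_mul_of_nonneg_left ?_ (Real.sqrt_nonneg _))
    calc Real.sqrt (nsq D) ≤ Real.sqrt (C * S) := Real.sqrt_le_sqrt h2
      _ = Real.sqrt C * Real.sqrt S := by rw [Real.sqrt_mul hC.le]
  calc |-(2 * ip g (fun a => D a - Lmd β a)) - 2 * ip e D| ≤
      |-(2 * ip g (fun a => D a - Lmd β a))| + |2 * ip e D| := abs_sub _ _
    _ = 2 * |ip g (fun a => D a - Lmd β a)| + 2 * |ip e D| := by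
        rw [abs_neg, abs_mul, abs_mul, abs_two]
    _ ≤ 2 * (Real.sqrt (nsq g) * (Real.sqrt C * S)) +
        2 * (Real.sqrt (nsq e) * (Real.sqrt C * Real.sqrt S)) := by linarith
    _ = _ := by ring

end Pool.Agent.Helper66.T6
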