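import Pool.Agent.Helper46.T6.Stmts
import Pool.Agent.Helper66.T6.NEAR

/-! T6, MOVE: the tangential part is removed by an orthogonal action. -/

set_option autoImplicit false

open Finset MeasureTheory Filter Topology

namespace Pool.Agent.Helper66.T6

open Pool.Agent.Helper15.T4 (IsPM PM cov IsMat nsq po)
open Pool.Agent.Helper15.T6
open Pool.Agent.Helper46.T6

theorem nsq_nn {ι : Type} [Fintype ι] (x : ι → ℝ) : 0 ≤ nsq x :=
  Finset.sum_nonneg fun _ _ => sq_nonneg _

theorem nsqm_nn {d : ℕ} (A : Md d) : 0 ≤ nsqm A :=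
  Finset.sum_nonneg fun _ _ => Finset.sum_nonneg fun _ _ => sq_nonneg _

theorem nsq_add3 {ι : Type} [Fintype ι] (x y z : ι → ℝ) :
    nsq (fun a => x a + y a + z a) ≤ 3 * (nsq x + nsq y + nsq z) := by
  unfold nsq
  rw [← Finset.sum_add_distrib, ← Finset.sum_add_distrib, Finset.mul_sum]
  refine Finset.sum_le_sum fun a _ => ?_
  nlinarith [sq_nonneg (x a - y a), sq_nonneg (y a - z a), sq_nonneg (x a - z a)]

theorem OD_abs {d : ℕ} {O : Md d} (h : OD O) (i j : Fin d) : |O i j| ≤ 1 := by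
  have h1 : (O * O.transpose) i i = 1 := by rw [h]; simp
  rw [Matrix.mul_apply] at h1
  have h2 : O i j ^ 2 ≤ 1 := by
    rw [← h1]
    have : O i j ^ 2 = O i j * O.transpose j i := by rw [Matrix.transpose_apply]; ring
    rw [this]
    refine Finset.single_le_sum (f := fun k => O i k * O.transpose k i) (fun k _ => ?_)
      (Finset.mem_univ j)
    simp only [Matrix.transpose_apply]
    exact mul_self_nonneg _
  exact abs_le_one_iff_mul_self_le_one.2 (by nlinarith)

theorem OD_one {d : ℕ} : OD (1 : Md d) := by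
  unfold OD; simp

theorem prod_sub_prod {ι : Type} [DecidableEq ι] (s : Finset ι) (x y : ι → ℝ)
    (hx : ∀ i, |x i| ≤ 1) (hy : ∀ i, |y i| ≤ 1) :
    |∏ i ∈ s, x i - ∏ i ∈ s, y i| ≤ ∑ i ∈ s, |x i - y i| := by
  induction s using Finset.induction_on with
  | empty => simp
  | insert a s ha ih =>
    rw [Finset.prod_insert ha, Finset.prod_insert ha, Finset.sum_insert ha]
    have hP : |∏ i ∈ s, x i| ≤ 1 := by
      rw [Finset.abs_prod]
      exact Finset.prod_le_one (fun i _ => abs_nonneg _) (fun i _ => hx i)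
    calc |x a * ∏ i ∈ s, x i - y a * ∏ i ∈ s, y i| =
        |(x a - y a) * ∏ i ∈ s, x i + y a * (∏ i ∈ s, x i - ∏ i ∈ s, y i)| := by
          congr 1; ring
      _ ≤ |(x a - y a) * ∏ i ∈ s, x i| + |y a * (∏ i ∈ s, x i - ∏ i ∈ s, y i)| := abs_add_le _ _
      _ = |x a - y a| * |∏ i ∈ s, x i| + |y a| * |∏ i ∈ s, x i - ∏ i ∈ s, y i| := by
          rw [abs_mul, abs_mul]
      _ ≤ |x a - y a| * 1 + 1 * |∏ i ∈ s, x i - ∏ i ∈ s, y i| := by
          apply add_le_add
          · exact mul_le_mul_of_nonneg_left hP (abs_nonneg _)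
          · exact mul_le_mul_of_nonneg_right (hy a) (abs_nonneg _)
      _ ≤ |x a - y a| + ∑ i ∈ s, |x i - y i| := by linarith

theorem sq_entry_le {d : ℕ} (A : Md d) (i j : Fin d) : A i j ^ 2 ≤ nsqm A := by
  unfold nsqm
  calc A i j ^ 2 ≤ ∑ k, A i k ^ 2 :=
        Finset.single_le_sum (f := fun k => A i k ^ 2) (fun k _ => sq_nonneg _) (Finset.mem_univ j)
    _ ≤ _ := Finset.single_le_sum (f := fun l => ∑ k, A l k ^ 2)
        (fun k _ => Finset.sum_nonneg fun _ _ => sq_nonneg _) (Finset.mem_univ i)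

/-- An orthogonal action near the identity. -/
theorem act_sub_le (hA0 : ST_ACTM) {d : ℕ} {J : Type} [Fintype J] [DecidableEq J] (A : J → Md d)
    (hA : ∀ j, OD (A j)) (h : (J → Fin d) → ℝ) :
    nsq (fun a => act A h a - h a) ≤
      ((Fintype.card (J → Fin d) : ℝ) ^ 2 * (Fintype.card J : ℝ)) *
        (∑ j, nsqm (A j - 1)) * nsq h := by
  have hid : act (fun _ : J => (1 : Md d)) h = h := ((hA0.1 ℝ d J A A h).2)
  set S : ℝ := ∑ j, nsqm (A j - 1) with hS
  have hS0 : 0 ≤ S := Finset.sum_nonneg fun j _ => nsqm_nn _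
  have hM : ∀ a b : J → Fin d, (∏ j, A j (a j) (b j) - ∏ j, (1 : Md d) (a j) (b j)) ^ 2 ≤
      (Fintype.card J : ℝ) * S := by
    intro a b
    have h1 := prod_sub_prod (Finset.univ : Finset J) (fun j => A j (a j) (b j))
      (fun j => (1 : Md d) (a j) (b j)) (fun j => OD_abs (hA j) _ _) (fun j => OD_abs OD_one _ _)
    have h2 : (∏ j, A j (a j) (b j) - ∏ j, (1 : Md d) (a j) (b j)) ^ 2 ≤
        (∑ j, |A j (a j) (b j) - (1 : Md d) (a j) (b j)|) ^ 2 := by
      rw [← sq_abs]
      exact pow_le_pow_left₀ (abs_nonneg _) h1 2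
    refine h2.trans ?_
    have h3 := sq_sum_le_card_mul_sum_sq (s := (Finset.univ : Finset J))
      (f := fun j => |A j (a j) (b j) - (1 : Md d) (a j) (b j)|)
    refine h3.trans ?_
    rw [Finset.card_univ]
    apply mul_le_mul_of_nonneg_left _ (by positivity)
    refine Finset.sum_le_sum fun j _ => ?_
    rw [sq_abs]
    exact sq_entry_le (A j - 1) (a j) (b j)
  have hrow : ∀ a : J → Fin d, (act A h a - h a) ^ 2 ≤
      (Fintype.card (J → Fin d) : ℝ) * ((Fintype.card J : ℝ) * S) * nsq h := by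
    intro a
    have e1 : act A h a - h a =
        ∑ b : J → Fin d, (∏ j, A j (a j) (b j) - ∏ j, (1 : Md d) (a j) (b j)) * h b := by
      conv_lhs => rw [show h a = act (fun _ : J => (1 : Md d)) h a by rw [hid]]
      unfold act
      rw [← Finset.sum_sub_distrib]
      exact Finset.sum_congr rfl fun b _ => by ring
    rw [e1]
    refine (Finset.sum_mul_sq_le_sq_mul_sq _ _ _).trans ?_
    apply mul_le_mul_of_nonneg_right _ (nsq_nn h)
    calc ∑ b : J → Fin d, (∏ j, A j (a j) (b j) - ∏ j, (1 : Md d) (a j) (b j)) ^ 2 ≤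
        ∑ _b : J → Fin d, (Fintype.card J : ℝ) * S := Finset.sum_le_sum fun b _ => hM a b
      _ = _ := by rw [Finset.sum_const, Finset.card_univ, nsmul_eq_mul]
  calc nsq (fun a => act A h a - h a) ≤
      ∑ _a : J → Fin d, (Fintype.card (J → Fin d) : ℝ) * ((Fintype.card J : ℝ) * S) * nsq h :=
        Finset.sum_le_sum fun a _ => hrow a
    _ = _ := by rw [Finset.sum_const, Finset.card_univ, nsmul_eq_mul]; ring

theorem Lmd_add {d K : ℕ} (β γ : Fin K → Md d) (a : Fin K × Fin 2 → Fin d) :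
    Lmd (fun p => β p + γ p) a = Lmd β a + Lmd γ a := by
  unfold Lmd
  rw [← Finset.sum_add_distrib]
  refine Finset.sum_congr rfl fun p _ => ?_
  simp only [Matrix.add_apply]
  ring

theorem sum_sq_le {ι : Type} (s : Finset ι) (x : ι → ℝ) (hx : ∀ i, 0 ≤ x i) :
    ∑ i ∈ s, x i ^ 2 ≤ (∑ i ∈ s, x i) ^ 2 := by
  rw [sq (∑ i ∈ s, x i), Finset.sum_mul]
  refine Finset.sum_le_sum fun i hi => ?_
  rw [sq]
  exact mul_le_mul_of_nonneg_left (Finset.single_le_sum (fun j _ => hx j) hi) (hx i)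

theorem nsqm_skew_le {d : ℕ} (M : Md d) :
    nsqm ((1 / 2 : ℝ) • (M - M.transpose)) ≤ nsqm M := by
  have h1 : nsqm M.transpose = nsqm M := by
    unfold nsqm
    rw [Finset.sum_comm]
    rfl
  have h2 : nsqm ((1 / 2 : ℝ) • (M - M.transpose)) ≤ (nsqm M + nsqm M.transpose) / 2 := by
    unfold nsqm
    rw [← Finset.sum_add_distrib, Finset.sum_div]
    refine Finset.sum_le_sum fun i _ => ?_
    rw [← Finset.sum_add_distrib, Finset.sum_div]
    refine Finset.sum_le_sum fun j _ => ?_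
    simp only [Matrix.smul_apply, Matrix.sub_apply, smul_eq_mul]
    nlinarith [sq_nonneg (M i j + M.transpose i j)]
  rw [h1] at h2
  linarith

theorem nsqm_neg {d : ℕ} (A : Md d) : nsqm (-A) = nsqm A := by
  unfold nsqm
  simp

theorem st_MOVE (hTAN : ST_TANP) (hLOC : ST_LOC) (hEXPB : ST_EXPB) (hACT : ST_ACTM) :
    ST_MOVE := by
  intro d hd K
  obtain ⟨C1, hC1, hexp⟩ := hEXPB d
  obtain ⟨C2, hC2, hloc⟩ := hLOC d hd K
  obtain ⟨ht1, ht2, -⟩ := hTAN d hd K
  have hdp : (0 : ℝ) < d := by exact_mod_cast hd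
  set C3 : ℝ := (Fintype.card (Fin K × Fin 2 → Fin d) : ℝ) ^ 2 *
    (Fintype.card (Fin K × Fin 2) : ℝ) with hC3
  have hC30 : 0 ≤ C3 := by rw [hC3]; positivity
  refine ⟨3 * (C2 * (C1 * d) ^ 2 + C1 * d + C3 * (C1 * d)), 1 / d, by positivity, by positivity,
    fun h hr => ?_⟩
  obtain ⟨β, hβa, hβs, hβn, hβt⟩ := ht1 h
  have hn0 : 0 ≤ nsq h := nsq_nn h
  have ht0 : 0 ≤ tqd d K h := by
    rw [← hβs]
    exact div_nonneg (Finset.sum_nonneg fun p _ => nsqm_nn _) hdp.le
  have htn : tqd d K h ≤ nsq h := by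
    have := nsq_nn (fun a => h a - Lmd β a)
    linarith
  have hsum : ∑ p, nsqm (β p) = d * tqd d K h := by
    rw [← hβs]; field_simp
  have hsn : ∑ p, nsqm (β p) ≤ d * nsq h := by
    rw [hsum]; exact mul_le_mul_of_nonneg_left htn hdp.le
  have hβ1 : ∀ p, nsqm (β p) ≤ 1 := by
    intro p
    have h1 : nsqm (β p) ≤ ∑ p, nsqm (β p) :=
      Finset.single_le_sum (f := fun p => nsqm (β p)) (fun p _ => nsqm_nn _) (Finset.mem_univ p)
    have h2 : (d : ℝ) * nsq h ≤ d * (1 / d) := mul_le_mul_of_nonneg_left hr hdp.le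
    have h3 : (d : ℝ) * (1 / d) = 1 := by field_simp
    linarith
  choose B hB using fun p => hexp (-(β p)) (by rw [Matrix.transpose_neg, hβa p]) (by
    rw [nsqm_neg]; exact hβ1 p)
  -- the action
  let A : Fin K × Fin 2 → Md d := fun j => if j.2 = 0 then B j.1 else 1
  have hAOD : ∀ j, OD (A j) := by
    intro j
    by_cases hj : j.2 = 0
    · simp only [A, hj, if_true]; exact (hB j.1).1
    · simp only [A, hj, if_false]; exact OD_one
  have hAu : act A (u0 d K) = pt (Equiv.refl _) B := by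
    unfold u0
    rw [hACT.2.2 d K _ A (Equiv.refl _) (fun _ => 1)]
    congr 1
    funext p
    simp [A]
  have hSA : ∑ j, nsqm (A j - 1) = ∑ p, nsqm (B p - 1) := by
    rw [Fintype.sum_prod_type]
    refine Finset.sum_congr rfl fun p _ => ?_
    rw [Fin.sum_univ_two]
    simp [A, nsqm]
  set S : ℝ := ∑ p, nsqm (B p - 1) with hS
  have hS0 : 0 ≤ S := Finset.sum_nonneg fun p _ => nsqm_nn _
  have hSle : S ≤ C1 * (d * nsq h) := by
    calc S ≤ ∑ p, C1 * nsqm (β p) := Finset.sum_le_sum fun p _ => by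
          have := (hB p).2.2
          rwa [nsqm_neg] at this
      _ = C1 * ∑ p, nsqm (β p) := by rw [Finset.mul_sum]
      _ ≤ _ := mul_le_mul_of_nonneg_left hsn hC1.le
  have hact : act A (fun a => u0 d K a + h a) = fun a => pt (Equiv.refl _) B a + act A h a := by
    rw [← hAu]
    funext a
    unfold act
    rw [← Finset.sum_add_distrib]
    exact Finset.sum_congr rfl fun b _ => by ring
  set γ : Fin K → Md d := fun p => (1 / 2 : ℝ) • (B p - (B p).transpose) with hγ
  set X : (Fin K × Fin 2 → Fin d) → ℝ := fun a => pt (Equiv.refl _) B a - u0 d K a - Lmd γ a with hX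
  set Y : (Fin K × Fin 2 → Fin d) → ℝ := Lmd (fun p => γ p + β p) with hY
  set Z : (Fin K × Fin 2 → Fin d) → ℝ := fun a => act A h a - h a with hZ
  refine ⟨A, fun a => h a - Lmd β a, fun a => X a + Y a + Z a, hAOD, ?_, hβt, hβn, ?_⟩
  · rw [hact]
    funext a
    have h1 : Y a = Lmd γ a + Lmd β a := Lmd_add γ β a
    simp only [hX, hZ, h1]
    ring
  · have hXn : nsq X ≤ C2 * (C1 * (d * nsq h)) ^ 2 := by
      refine ((hloc B (fun p => (hB p).1)).1).trans ?_
      apply mul_le_mul_of_nonneg_left _ hC2.le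
      exact pow_le_pow_left₀ hS0 hSle 2
    have hγβ : ∀ p, γ p + β p = (1 / 2 : ℝ) • ((B p - 1 - -(β p)) - (B p - 1 - -(β p)).transpose) := by
      intro p
      have : (B p - 1 - -(β p)).transpose = (B p).transpose - 1 + -(β p) := by
        rw [Matrix.transpose_sub, Matrix.transpose_sub, Matrix.transpose_neg, hβa p,
          Matrix.transpose_one]
        abel
      rw [this, hγ]
      simp only
      module
    have hYa : ∀ p, (γ p + β p).transpose = -(γ p + β p) := by
      intro p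
      rw [hγ, Matrix.transpose_add, hβa p]
      ext i j
      simp [Matrix.transpose_apply]
      ring
    have hYn : nsq Y ≤ C1 * (d * nsq h ^ 2) := by
      rw [hY, (ht2 (fun p => γ p + β p) hYa).1]
      have h1 : ∑ p, nsqm (γ p + β p) ≤ C1 * (d * nsq h) ^ 2 := by
        calc ∑ p, nsqm (γ p + β p) ≤ ∑ p, C1 * nsqm (β p) ^ 2 := by
              refine Finset.sum_le_sum fun p _ => ?_
              rw [hγβ p]
              refine (nsqm_skew_le _).trans ?_
              have := (hB p).2.1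
              rwa [nsqm_neg] at this
          _ = C1 * ∑ p, nsqm (β p) ^ 2 := by rw [Finset.mul_sum]
          _ ≤ C1 * (∑ p, nsqm (β p)) ^ 2 := by
              apply mul_le_mul_of_nonneg_left _ hC1.le
              exact sum_sq_le _ _ fun p => nsqm_nn _
          _ ≤ C1 * (d * nsq h) ^ 2 := by
              apply mul_le_mul_of_nonneg_left _ hC1.le
              exact pow_le_pow_left₀ (Finset.sum_nonneg fun p _ => nsqm_nn _) hsn 2
      calc (∑ p, nsqm (γ p + β p)) / d ≤ C1 * (d * nsq h) ^ 2 / d :=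
            div_le_div_of_nonneg_right h1 hdp.le
        _ = _ := by field_simp
    have hZn : nsq Z ≤ C3 * (C1 * (d * nsq h)) * nsq h := by
      refine (act_sub_le hACT A hAOD h).trans ?_
      rw [hSA]
      apply mul_le_mul_of_nonneg_right _ hn0
      exact mul_le_mul_of_nonneg_left hSle hC30
    calc nsq (fun a => X a + Y a + Z a) ≤ 3 * (nsq X + nsq Y + nsq Z) := nsq_add3 X Y Z
      _ ≤ 3 * (C2 * (C1 * (d * nsq h)) ^ 2 + C1 * (d * nsq h ^ 2) +
          C3 * (C1 * (d * nsq h)) * nsq h) := by linarith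
      _ = _ := by ring

end Pool.Agent.Helper66.T6
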