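import Pool.Agent.Helper46.T6.Stmts

set_option autoImplicit false

/-!
MP_2f9829_co, general degree: module PRD, the product over the eigenvalues of the Hessian
(adapted from `Pool/Agent/Helper49/T5/PRD.lean`).
-/

open Finset MeasureTheory Filter Topology

namespace Pool.Agent.Helper66.T6.PRD

open Pool.Agent.Helper15.T4 (IsPM PM cov IsMat nsq po)
open Pool.Agent.Helper15.T6
open Pool.Agent.Helper46.T6

/-- The index of the scalar matrix. -/
def zz {d : ℕ} : BB d := Sum.inl ()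

/-- One factor `c` at the position `p`. -/
noncomputable def sg {d K : ℕ} (q : Fin K × BB d) : Fin K → BB d := Function.update b0 q.1 q.2

/-- Index pairs of the nonzero single factors. -/
noncomputable def I1 (d K : ℕ) : Finset (Fin K × BB d) := univ ×ˢ (univ.erase zz)

/-- The indices with at least two nontrivial factors. -/
noncomputable def S2 (d K : ℕ) : Finset (Fin K → BB d) := univ \ ({b0} ∪ (I1 d K).image sg)

theorem sg_self {d K : ℕ} (q : Fin K × BB d) : sg q q.1 = q.2 := by simp [sg]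

theorem sg_ne {d K : ℕ} (q : Fin K × BB d) {p : Fin K} (h : p ≠ q.1) : sg q p = zz := by
  simp [sg, Function.update_of_ne h, b0, zz]

theorem mem_I1 {d K : ℕ} {q : Fin K × BB d} : q ∈ I1 d K ↔ q.2 ≠ zz := by
  simp [I1]

theorem sg_inj (d K : ℕ) : Set.InjOn (sg : Fin K × BB d → Fin K → BB d) (I1 d K) := by
  intro q hq r hr h
  have hq2 := mem_I1.1 hq
  have hr2 := mem_I1.1 hr
  have h1 : q.1 = r.1 := by
    by_contra hne
    have := congrFun h q.1
    rw [sg_self, sg_ne r hne] at this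
    exact hq2 this
  have h2 : q.2 = r.2 := by
    have := congrFun h q.1
    rw [sg_self, h1, sg_self] at this
    exact this
  exact Prod.ext h1 h2

theorem sg_ne_zero {d K : ℕ} {q : Fin K × BB d} (hq : q ∈ I1 d K) : sg q ≠ b0 := by
  intro h
  have := congrFun h q.1
  rw [sg_self] at this
  exact mem_I1.1 hq this

theorem disj1 (d K : ℕ) : Disjoint ({b0} : Finset (Fin K → BB d)) ((I1 d K).image sg) := by
  rw [Finset.disjoint_singleton_left, Finset.mem_image]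
  rintro ⟨q, hq, h⟩
  exact sg_ne_zero hq h

theorem prod_split {d K : ℕ} (F : (Fin K → BB d) → ℝ) :
    ∏ b, F b = F b0 * (∏ q ∈ I1 d K, F (sg q)) * ∏ b ∈ S2 d K, F b := by
  have h := Finset.prod_sdiff (Finset.subset_univ ({b0} ∪ (I1 d K).image sg)) (f := F)
  rw [← h, Finset.prod_union (disj1 d K), Finset.prod_singleton,
    Finset.prod_image (sg_inj d K), mul_comm]
  rfl

theorem sum_split {d K : ℕ} (F : (Fin K → BB d) → ℝ) :
    ∑ b, F b = F b0 + (∑ q ∈ I1 d K, F (sg q)) + ∑ b ∈ S2 d K, F b := by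
  have h := Finset.sum_sdiff (Finset.subset_univ ({b0} ∪ (I1 d K).image sg)) (f := F)
  rw [← h, Finset.sum_union (disj1 d K), Finset.sum_singleton,
    Finset.sum_image (sg_inj d K), add_comm]
  rfl

theorem mu_zero {d : ℕ} : mud (zz : BB d) = 1 := by simp [mud, zz]

theorem mprod_zero (d K : ℕ) : ∏ p, mud ((b0 : Fin K → BB d) p) = 1 := by
  simp [b0, mud]

theorem mprod_sg {d K : ℕ} (q : Fin K × BB d) : ∏ p, mud (sg q p) = mud q.2 := by
  rw [Finset.prod_eq_single q.1 (fun p _ hp => by rw [sg_ne q hp, mu_zero])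
    (fun h => absurd (Finset.mem_univ _) h), sg_self]

theorem mem_S2 {d K : ℕ} {b : Fin K → BB d} (hb : b ∈ S2 d K) :
    ∃ p p' : Fin K, p ≠ p' ∧ b p ≠ zz ∧ b p' ≠ zz := by
  rw [S2, Finset.mem_sdiff, Finset.mem_union, Finset.mem_singleton, Finset.mem_image] at hb
  have h1 : b ≠ b0 := fun h => hb.2 (Or.inl h)
  obtain ⟨p, hp⟩ := Function.ne_iff.1 h1
  by_contra hno
  push Not at hno
  apply hb.2
  right
  refine ⟨(p, b p), mem_I1.2 hp, ?_⟩
  funext p'
  by_cases h : p' = p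
  · subst h
    exact sg_self (p', b p')
  · rw [sg_ne (p, b p) h]
    exact (hno p p' (fun h' => h h'.symm) hp).symm

theorem dm1_pos {d : ℕ} (hd : 3 ≤ d) : (2 : ℝ) ≤ (d : ℝ) - 1 := by
  have : (3 : ℝ) ≤ d := by exact_mod_cast hd
  linarith

theorem mu_le_inv {d : ℕ} (hd : 3 ≤ d) {c : BB d} (hc : c ≠ zz) :
    |mud c| ≤ 1 / ((d : ℝ) - 1) := by
  have h := dm1_pos hd
  have h0 : 0 < 1 / ((d : ℝ) - 1) := by positivity
  rcases c with c | c | c
  · exact absurd rfl hc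
  · simp only [mud]
    rw [abs_of_pos h0]
  · simp only [mud]
    rw [abs_neg, abs_of_pos h0]

theorem mu_le_one {d : ℕ} (hd : 3 ≤ d) (c : BB d) : |mud c| ≤ 1 := by
  have h := dm1_pos hd
  by_cases hc : c = zz
  · rw [hc, mu_zero, abs_one]
  · refine (mu_le_inv hd hc).trans ?_
    rw [div_le_one (by linarith)]
    linarith

theorem mprod_S2 {d K : ℕ} (hd : 3 ≤ d) {b : Fin K → BB d} (hb : b ∈ S2 d K) :
    |((d : ℝ) - 1) * ∏ p, mud (b p)| ≤ 1 / 2 := by
  have hdm := dm1_pos hd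
  obtain ⟨p, p', hne, hp, hp'⟩ := mem_S2 hb
  rw [abs_mul, Finset.abs_prod, ← Finset.prod_sdiff (Finset.subset_univ {p, p'}),
    Finset.prod_pair hne, abs_of_pos (by linarith : 0 < (d : ℝ) - 1)]
  have h1 : ∏ i ∈ univ \ {p, p'}, |mud (b i)| ≤ 1 :=
    Finset.prod_le_one (fun i _ => abs_nonneg _) (fun i _ => mu_le_one hd _)
  have h0 : 0 ≤ ∏ i ∈ univ \ {p, p'}, |mud (b i)| :=
    Finset.prod_nonneg (fun i _ => abs_nonneg _)
  have h2 := mu_le_inv hd hp
  have h3 := mu_le_inv hd hp'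
  have h4 : |mud (b p)| * |mud (b p')| ≤ 1 / ((d : ℝ) - 1) * (1 / ((d : ℝ) - 1)) :=
    mul_le_mul h2 h3 (abs_nonneg _) (by positivity)
  calc ((d : ℝ) - 1) * ((∏ i ∈ univ \ {p, p'}, |mud (b i)|) * (|mud (b p)| * |mud (b p')|)) ≤
        ((d : ℝ) - 1) * (1 * (1 / ((d : ℝ) - 1) * (1 / ((d : ℝ) - 1)))) := by
        apply mul_le_mul_of_nonneg_left _ (by linarith)
        exact mul_le_mul h1 h4 (by positivity) (by norm_num)
    _ = 1 / ((d : ℝ) - 1) := by
        have : (d : ℝ) - 1 ≠ 0 := by linarith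
        field_simp
    _ ≤ 1 / 2 := one_div_le_one_div_of_le (by norm_num) hdm

theorem mem_Tan {d K : ℕ} {b : Fin K → BB d} :
    b ∈ Tand d K ↔ ∃ p, IsA (b p) ∧ ∀ p', p' ≠ p → b p' = Sum.inl () := by
  simp only [Tand, Finset.mem_filter, Finset.mem_univ, true_and]

theorem zero_notMem_Tan (d K : ℕ) : (b0 : Fin K → BB d) ∉ Tand d K := by
  rw [mem_Tan]
  rintro ⟨p, h, -⟩
  exact h

theorem isA_ne {d : ℕ} {c : BB d} (h : IsA c) : c ≠ zz := by
  rintro rfl
  exact h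

theorem sg_mem_Tan {d K : ℕ} {q : Fin K × BB d} (hq : q ∈ I1 d K) :
    sg q ∈ Tand d K ↔ IsA q.2 := by
  rw [mem_Tan]
  constructor
  · rintro ⟨p, h1, h2⟩
    have hp : p = q.1 := by
      by_contra hne
      have := h2 q.1 (fun h => hne h.symm)
      rw [sg_self] at this
      exact mem_I1.1 hq this
    subst hp
    rwa [sg_self] at h1
  · intro h
    refine ⟨q.1, ?_, fun p' hp' => sg_ne q hp'⟩
    rwa [sg_self]

theorem S2_notMem_Tan {d K : ℕ} {b : Fin K → BB d} (hb : b ∈ S2 d K) : b ∉ Tand d K := by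
  rw [mem_Tan]
  rintro ⟨r, h1, h2⟩
  obtain ⟨p, p', hne, hp, hp'⟩ := mem_S2 hb
  by_cases h : p = r
  · exact hp' (h2 p' (fun h' => hne (h.trans h'.symm)))
  · exact hp (h2 p h)

theorem S2_ne_zero {d K : ℕ} {b : Fin K → BB d} (hb : b ∈ S2 d K) : b ≠ b0 := by
  obtain ⟨p, p', hne, hp, hp'⟩ := mem_S2 hb
  intro h
  exact hp (by rw [h]; rfl)

/-- The logarithmic series. -/
theorem hasSum_log {d : ℕ} {m : ℝ} (hm : |((d : ℝ) - 1) * m| ≤ 1 / 2) :
    HasSum (fun k : ℕ => lam d k * m ^ (k + 1)) (-(Real.log (1 - ((d : ℝ) - 1) * m)) / 2) := by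
  have h1 : |((d : ℝ) - 1) * m| < 1 := by linarith
  have h := (Real.hasSum_pow_div_log_of_abs_lt_one h1).div_const 2
  refine h.congr_fun ?_
  intro k
  rw [lam, mul_pow]
  have hk : ((k : ℝ) + 1) ≠ 0 := by positivity
  field_simp

/-- The product over one factor. -/
theorem exp_half_log {d : ℕ} (hd : 3 ≤ d) {m : ℝ} (hm : |((d : ℝ) - 1) * m| ≤ 1 / 2) :
    Real.sqrt d * (Real.sqrt (d * (1 - ((d : ℝ) - 1) * m)))⁻¹ =
      Real.exp (-(Real.log (1 - ((d : ℝ) - 1) * m)) / 2) := by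
  have h1 : 0 < 1 - ((d : ℝ) - 1) * m := by
    have := (abs_le.1 hm).2
    linarith
  have hdp : (0 : ℝ) < d := by have := dm1_pos hd; linarith
  have h3 : (0 : ℝ) < Real.sqrt d := Real.sqrt_pos.2 hdp
  have h4 : 0 < Real.sqrt (1 - ((d : ℝ) - 1) * m) := Real.sqrt_pos.2 h1
  rw [Real.sqrt_mul hdp.le, mul_inv, ← mul_assoc, mul_inv_cancel₀ h3.ne',
    one_mul, neg_div, Real.exp_neg, Real.sqrt_eq_rpow, Real.rpow_def_of_pos h1]
  congr 2
  ring

/-- The number of the antisymmetric indices. -/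
theorem card_pairs (d : ℕ) :
    (Fintype.card {p : Fin d × Fin d // p.1 < p.2} : ℝ) = (d : ℝ) * (d - 1) / 2 := by
  have h1 : Fintype.card {p : Fin d × Fin d // p.1 < p.2} = ∑ i ∈ range d, i := by
    rw [Fintype.card_subtype, Finset.card_filter, Fintype.sum_prod_type_right,
      ← Fin.sum_univ_eq_sum_range (fun i => i) d]
    refine Finset.sum_congr rfl fun j _ => ?_
    rw [← Finset.card_filter]
    have : (univ.filter fun i : Fin d => i < j) = Finset.Iio j := by ext i; simp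
    rw [this, Fin.card_Iio]
  have h2 := Finset.sum_range_id_mul_two d
  have h3 : ((∑ i ∈ range d, i : ℕ) : ℝ) * 2 = (d : ℝ) * (d - 1) := by
    rcases Nat.eq_zero_or_pos d with h0 | h0
    · subst h0; simp
    · have : ((d - 1 : ℕ) : ℝ) = (d : ℝ) - 1 := by
        rw [Nat.cast_sub h0]; simp
      rw [← this]
      exact_mod_cast h2
  rw [h1]
  linarith

theorem sum_mu_pow {d : ℕ} (hd : 3 ≤ d) (k : ℕ) : ∑ c : BB d, mud c ^ (k + 1) = tau d k := by
  have hdm := dm1_pos hd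
  have hcast : ((d - 1 : ℕ) : ℝ) = (d : ℝ) - 1 := by
    rw [Nat.cast_sub (by omega)]; simp
  rw [Fintype.sum_sum_type, Fintype.sum_sum_type, Fintype.sum_sum_type]
  simp only [mud, Finset.univ_unique, Finset.sum_const, Finset.card_univ, Finset.card_singleton,
    one_pow, nsmul_eq_mul, Fintype.card_fin, card_pairs, hcast]
  unfold tau
  rw [neg_pow, div_pow]
  have : ((d : ℝ) - 1) ^ (k + 1) ≠ 0 := by positivity
  field_simp
  push_cast
  ring

theorem sum_S2 {d : ℕ} (hd : 3 ≤ d) (K k : ℕ) :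
    ∑ b ∈ S2 d K, (∏ p, mud (b p)) ^ (k + 1) = tau d k ^ K - 1 - K * (tau d k - 1) := by
  classical
  have h := sum_split (d := d) (K := K) (fun b => (∏ p, mud (b p)) ^ (k + 1))
  have h1 : ∑ b : Fin K → BB d, (∏ p, mud (b p)) ^ (k + 1) = tau d k ^ K := by
    have h2 := Finset.prod_univ_sum (fun _ : Fin K => (univ : Finset (BB d)))
      (fun _ c => mud c ^ (k + 1))
    rw [Fintype.piFinset_univ] at h2
    simp only [Finset.prod_pow] at h2
    rw [← h2]
    simp [sum_mu_pow hd]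
  have h3 : ∑ q ∈ I1 d K, (∏ p, mud (sg q p)) ^ (k + 1) = K * (tau d k - 1) := by
    simp only [mprod_sg]
    rw [I1, Finset.sum_product]
    have h4 : ∑ c ∈ (univ : Finset (BB d)).erase zz, mud c ^ (k + 1) = tau d k - 1 := by
      rw [← sum_mu_pow hd, ← Finset.sum_erase_add _ _ (Finset.mem_univ (zz : BB d)), mu_zero]
      simp
    have h5 : ∀ x : Fin K, ∑ y ∈ (univ : Finset (BB d)).erase zz, mud (x, y).2 ^ (k + 1) =
        tau d k - 1 := fun x => by rw [← h4]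
    calc ∑ x : Fin K, ∑ y ∈ (univ : Finset (BB d)).erase zz, mud (x, y).2 ^ (k + 1)
        = ∑ _x : Fin K, (tau d k - 1) := Finset.sum_congr rfl fun x _ => h5 x
      _ = _ := by rw [Finset.sum_const, Finset.card_univ, Fintype.card_fin, nsmul_eq_mul]
  rw [h1, h3, mprod_zero] at h
  rw [h]
  ring

/-- The factor at the index `b`. -/
noncomputable def ww {d K : ℕ} (b : Fin K → BB d) : ℝ :=
  Real.sqrt d * (Real.sqrt (evd b + (open Classical in if b ∈ Tand d K then 1 else 0)))⁻¹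

theorem ww_zero {d : ℕ} (hd : 3 ≤ d) (K : ℕ) : ww (b0 : Fin K → BB d) = (Real.sqrt 2)⁻¹ := by
  have hdp : (0 : ℝ) < d := by have := dm1_pos hd; linarith
  have h : evd (b0 : Fin K → BB d) = d * 2 := by
    rw [evd, mprod_zero, if_pos rfl]
    ring
  have h3 : (0 : ℝ) < Real.sqrt d := Real.sqrt_pos.2 hdp
  rw [ww, if_neg (zero_notMem_Tan d K), h, add_zero, Real.sqrt_mul hdp.le,
    mul_inv, ← mul_assoc, mul_inv_cancel₀ h3.ne', one_mul]

open Classical in
/-- The factor of one nontrivial matrix. -/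
noncomputable def w1 {d : ℕ} (c : BB d) : ℝ :=
  if IsA c then Real.sqrt d else (Real.sqrt 2)⁻¹

theorem ww_sg {d : ℕ} (hd : 3 ≤ d) {K : ℕ} {q : Fin K × BB d} (hq : q ∈ I1 d K) :
    ww (sg q) = w1 q.2 := by
  have hdm := dm1_pos hd
  have hdm0 : (d : ℝ) - 1 ≠ 0 := by linarith
  have hdp : (0 : ℝ) < d := by linarith
  have h3 : (0 : ℝ) < Real.sqrt d := Real.sqrt_pos.2 hdp
  rw [ww, evd, if_neg (sg_ne_zero hq), mprod_sg, w1]
  obtain ⟨p, c⟩ := q
  have hc : c ≠ zz := mem_I1.1 hq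
  by_cases h : IsA c
  · rw [if_pos h, if_pos ((sg_mem_Tan hq).2 h)]
    rcases c with c | c | c
    · exact absurd rfl hc
    · simp only [mud]
      rw [mul_one_div_cancel hdm0]
      norm_num
    · exact absurd h (by simp [IsA])
  · rw [if_neg h, if_neg (fun h' => h ((sg_mem_Tan hq).1 h'))]
    rcases c with c | c | c
    · exact absurd rfl hc
    · exact absurd trivial h
    · simp only [mud]
      have h6 : (d : ℝ) * (1 - ((d : ℝ) - 1) * -(1 / ((d : ℝ) - 1))) + 0 + 0 = d * 2 := by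
        field_simp
        ring
      rw [h6, Real.sqrt_mul hdp.le,
        mul_inv, ← mul_assoc, mul_inv_cancel₀ h3.ne', one_mul]

theorem ww_S2 {d : ℕ} (hd : 3 ≤ d) {K : ℕ} {b : Fin K → BB d} (hb : b ∈ S2 d K) :
    ww b = Real.exp (-(Real.log (1 - ((d : ℝ) - 1) * ∏ p, mud (b p))) / 2) := by
  rw [ww, evd, if_neg (S2_ne_zero hb), if_neg (S2_notMem_Tan hb), add_zero, add_zero,
    exp_half_log hd (mprod_S2 hd hb)]

theorem prod_w1 {d : ℕ} (hd : 3 ≤ d) : ∏ c ∈ (univ : Finset (BB d)).erase zz, w1 c =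
    (d : ℝ) ^ ((d : ℝ) * (d - 1) / 4) *
      (2 : ℝ) ^ (-(((d : ℝ) * (d + 1) / 2 - 1) / 2)) := by
  classical
  have hdp : (0 : ℝ) < d := by have := dm1_pos hd; linarith
  have hcast : ((d - 1 : ℕ) : ℝ) = (d : ℝ) - 1 := by
    rw [Nat.cast_sub (by omega)]; simp
  have h1 : ∏ c : BB d, w1 c = w1 (zz : BB d) * ∏ c ∈ (univ : Finset (BB d)).erase zz, w1 c :=
    (Finset.mul_prod_erase _ _ (Finset.mem_univ _)).symm
  have h2 : ∏ c : BB d, w1 c = (Real.sqrt 2)⁻¹ *
      (Real.sqrt d ^ (Fintype.card {p : Fin d × Fin d // p.1 < p.2}) *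
        ((Real.sqrt 2)⁻¹ ^ (Fintype.card {p : Fin d × Fin d // p.1 < p.2}) *
          (Real.sqrt 2)⁻¹ ^ (d - 1))) := by
    rw [Fintype.prod_sum_type, Fintype.prod_sum_type, Fintype.prod_sum_type]
    simp only [w1, IsA]
    simp
  have h0 : w1 (zz : BB d) = (Real.sqrt 2)⁻¹ := by
    unfold w1
    rw [if_neg]
    intro h
    exact isA_ne h rfl
  have h3 : (0 : ℝ) < (Real.sqrt 2)⁻¹ := by positivity
  rw [h0, h2] at h1
  have h4 := mul_left_cancel₀ h3.ne' h1
  rw [← h4, ← pow_add, ← Real.rpow_natCast (Real.sqrt d), ← Real.rpow_natCast ((Real.sqrt 2)⁻¹),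
    Real.sqrt_eq_rpow, Real.sqrt_eq_rpow, ← Real.rpow_neg (by norm_num : (0 : ℝ) ≤ 2),
    ← Real.rpow_mul hdp.le, ← Real.rpow_mul (by norm_num)]
  push_cast
  rw [card_pairs, hcast]
  congr 2 <;> ring

theorem prod_I1 {d : ℕ} (hd : 3 ≤ d) (K : ℕ) : ∏ q ∈ I1 d K, ww (sg q) =
    ((2 : ℝ) ^ (-(((d : ℝ) * (d + 1) / 2 - 1) / 2)) * (d : ℝ) ^ ((d : ℝ) * (d - 1) / 4)) ^ K := by
  classical
  rw [Finset.prod_congr rfl (fun q hq => ww_sg hd hq), I1, Finset.prod_product]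
  have h5 : ∀ x : Fin K, ∏ y ∈ (univ : Finset (BB d)).erase zz, w1 (x, y).2 =
      (d : ℝ) ^ ((d : ℝ) * (d - 1) / 4) * (2 : ℝ) ^ (-(((d : ℝ) * (d + 1) / 2 - 1) / 2)) :=
    fun x => by rw [← prod_w1 hd]
  calc ∏ x : Fin K, ∏ y ∈ (univ : Finset (BB d)).erase zz, w1 (x, y).2
      = ∏ _x : Fin K, (d : ℝ) ^ ((d : ℝ) * (d - 1) / 4) *
        (2 : ℝ) ^ (-(((d : ℝ) * (d + 1) / 2 - 1) / 2)) := Finset.prod_congr rfl fun x _ => h5 x
    _ = _ := by
      rw [Finset.prod_const, Finset.card_univ, Fintype.card_fin, mul_comm]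

theorem card_BB {d : ℕ} (hd : 3 ≤ d) : Fintype.card (BB d) = d ^ 2 := by
  have h := card_pairs d
  have hcast : ((d - 1 : ℕ) : ℝ) = (d : ℝ) - 1 := by
    rw [Nat.cast_sub (by omega)]; simp
  have : (Fintype.card (BB d) : ℝ) = (d : ℝ) ^ 2 := by
    rw [Fintype.card_sum, Fintype.card_sum, Fintype.card_sum]
    push_cast
    rw [h, Fintype.card_fin, hcast]
    simp
    ring
  exact_mod_cast this

theorem st_PRD : ST_PRD := by
  intro d hd K
  have hdp : (0 : ℝ) < d := by have := dm1_pos hd; linarith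
  have hall : (d : ℝ) ^ ((d : ℝ) ^ (2 * K) / 2) *
    ∏ b : Fin K → BB d,
      (Real.sqrt (evd b + (open Classical in if b ∈ Tand d K then 1 else 0)))⁻¹ =
      ∏ b : Fin K → BB d, ww b := by
    have h : ∏ b : Fin K → BB d, ww b = (∏ _b : Fin K → BB d, Real.sqrt d) *
      ∏ b : Fin K → BB d,
      (Real.sqrt (evd b + (open Classical in if b ∈ Tand d K then 1 else 0)))⁻¹ :=
      Finset.prod_mul_distrib
    rw [h]
    congr 1
    rw [Finset.prod_const, Finset.card_univ, Fintype.card_fun, Fintype.card_fin, card_BB hd,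
      Real.sqrt_eq_rpow, ← Real.rpow_natCast ((d : ℝ) ^ (1 / 2 : ℝ)) ((d ^ 2) ^ K),
      ← Real.rpow_mul hdp.le]
    congr 1
    push_cast
    rw [← pow_mul]
    ring
  rw [hall, prod_split, ww_zero hd, prod_I1 hd, Finset.prod_congr rfl (fun b hb => ww_S2 hd hb),
    ← Real.exp_sum]
  have hs : HasSum (fun k : ℕ => ∑ b ∈ S2 d K, lam d k * (∏ p, mud (b p)) ^ (k + 1))
      (∑ b ∈ S2 d K, -(Real.log (1 - ((d : ℝ) - 1) * ∏ p, mud (b p))) / 2) :=
    hasSum_sum (fun b hb => hasSum_log (mprod_S2 hd hb))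
  have hs' : (fun k : ℕ => ∑ b ∈ S2 d K, lam d k * (∏ p, mud (b p)) ^ (k + 1)) =
      fun k : ℕ => lam d k * (tau d k ^ K - 1 - K * (tau d k - 1)) := by
    funext k
    rw [← Finset.mul_sum, sum_S2 hd]
  rw [hs'] at hs
  rw [hs.tsum_eq]

end Pool.Agent.Helper66.T6.PRD
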